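import Pool.Agent.H2.Bog7

namespace Pool.Agent.Results.MP_a68a03_ag.DimType

open Pool.Agent.H2.Bog

theorem result (K : Type) [Field K] [Fintype K] (m d : ℕ) (hd : d < Fintype.card K)
    (ν : Fin (m+1) → ℕ) (hν : ν ∈ Lam d m) :
    IsGreatest (types K d m (pos d m ν)) (toLex fun i : Fin m => ν i.castSucc) := by
  constructor
  · obtain ⟨c⟩ : Nonempty (Fin (d+1) ↪ K) := Function.Embedding.nonempty_of_card_le (by simpa)
    refine exists_type (b := fun t => if h : t < d + 1 then c ⟨t, h⟩ else 0) ?_ hν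
    intro s hs t ht h
    simp only [dif_pos (Nat.lt_succ_of_le hs), dif_pos (Nat.lt_succ_of_le ht)] at h
    simpa using c.injective h
  · rintro _ ⟨F, h1, h2, rfl⟩
    exact upper hν h1 h2

end Pool.Agent.Results.MP_a68a03_ag.DimType
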